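import Pool.Agent.N119.PS.Stm2

set_option autoImplicit false

/-!
# Project PSC2 (helper119), leaf LEQ (helper674)

Displacement functions at bounded distance have the same translation lengths.
-/

namespace Pool.Agent.N674.PSC.LEQ

open Pool.Agent.H472R3 Pool.Agent.H67R3.FSR Pool.Agent.H67R4.SR Pool.Agent.N119.PS

variable {N : ℕ}

/-- on the axis the displacement of the powers is linear -/
theorem axis_pow (A : FTree N) (hA : A.Free) {g : FreeGroup (Fin N)} (hg : g ≠ 1) {z : A.T}
    (hz : dist z (g • z) = A.len g) (n : ℕ) :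
    G (lenFn A z) (g ^ (n + 1))⁻¹ g = 0 ∧ (lenFn A z).L (g ^ (n + 1)) = (n + 1 : ℕ) * A.len g := by
  have h1 : (lenFn A z).L g = A.len g := hz
  have h2 : A.len g = (lenFn A z).L (g * g) - (lenFn A z).L g := len_eq' A hA z g hg
  have h3 : 0 < (lenFn A z).L g := by
    rw [h1]
    exact len_pos A hA g hg
  have h4 : G (lenFn A z) g⁻¹ g = 0 := by
    unfold G
    rw [inv_inv, (lenFn A z).inv]
    linarith
  induction n with
  | zero =>
    rw [zero_add, pow_one]
    refine ⟨h4, ?_⟩
    rw [h1]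
    push_cast
    ring
  | succ n ih =>
    rw [pow_succ g (n + 1)]
    refine ⟨perp_mul_right _ ih.1 h3 h4, ?_⟩
    rw [L_mul_perp _ ih.1, ih.2, h1]
    push_cast
    ring

theorem bound (A : FTree N) (hA : A.Free) (g : FreeGroup (Fin N)) (x : A.T) :
    ∃ C : ℝ, ∀ n : ℕ, |(lenFn A x).L (g ^ n) - n * A.len g| ≤ C := by
  obtain ⟨z, hz⟩ := exists_axis A g
  refine ⟨2 * dist x z, fun n => ?_⟩
  have h1 : dist z (g ^ n • z) = n * A.len g := by
    rcases n with _ | n
    · rw [pow_zero, one_smul, dist_self, Nat.cast_zero, zero_mul]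
    · by_cases hg : g = 1
      · rw [hg, one_smul, dist_self] at hz
        rw [hg, one_pow, one_smul, dist_self, ← hz, mul_zero]
      · exact (axis_pow A hA hg hz n).2
  rw [lenFn_L, ← h1, abs_le]
  have h2 : dist (g ^ n • z) (g ^ n • x) = dist x z := by rw [A.isometric, dist_comm]
  have h3 : dist (g ^ n • x) (g ^ n • z) = dist x z := A.isometric _ _ _
  constructor
  · have h4 := dist_triangle4 z x (g ^ n • x) (g ^ n • z)
    rw [h3, dist_comm z x] at h4
    linarith
  · have h4 := dist_triangle4 x z (g ^ n • z) (g ^ n • x)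
    rw [h2] at h4
    linarith

theorem t : S_LEQ := by
  intro N A B hA hB x y a b K hK g
  obtain ⟨C, hC⟩ := bound A hA.1 g x
  obtain ⟨D, hD⟩ := bound B hB.1 g y
  have h1 : ∀ n : ℕ, n * |a * A.len g - b * B.len g| ≤ K + |a| * C + |b| * D := by
    intro n
    have h2 : (n : ℝ) * |a * A.len g - b * B.len g| = |(n : ℝ) * (a * A.len g - b * B.len g)| := by
      rw [abs_mul, abs_of_nonneg (Nat.cast_nonneg n : (0 : ℝ) ≤ n)]
    have h3 : (n : ℝ) * (a * A.len g - b * B.len g) =
        (a * (lenFn A x).L (g ^ n) - b * (lenFn B y).L (g ^ n)) -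
          a * ((lenFn A x).L (g ^ n) - n * A.len g) +
          b * ((lenFn B y).L (g ^ n) - n * B.len g) := by ring
    rw [h2, h3]
    refine (abs_add_le _ _).trans (add_le_add ((abs_sub _ _).trans (add_le_add (hK _) ?_)) ?_)
    · rw [abs_mul]
      exact mul_le_mul_of_nonneg_left (hC n) (abs_nonneg a)
    · rw [abs_mul]
      exact mul_le_mul_of_nonneg_left (hD n) (abs_nonneg b)
  by_contra hne
  have h4 : 0 < |a * A.len g - b * B.len g| := abs_pos.2 (sub_ne_zero.2 hne)
  obtain ⟨n, hn⟩ := exists_nat_gt ((K + |a| * C + |b| * D) / |a * A.len g - b * B.len g|)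
  rw [div_lt_iff₀ h4] at hn
  exact absurd (h1 n) (not_le.2 hn)

end Pool.Agent.N674.PSC.LEQ
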